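import Pool.Agent.UL4.Stmts

/-!
Squad UL4 (MP_c7c9bf_co), row TBD (helper19): the fourth moment from above.
-/

set_option autoImplicit false

open MeasureTheory Set

namespace Pool.Agent.UL4.H19

lemma split5 (g : ℝ → ℝ) (hg : ContinuousOn g (Icc 0 1)) {a b c d : ℝ} (h0 : 0 ≤ a) (h1 : a ≤ b)
    (h2 : b ≤ c) (h3 : c ≤ d) (h4 : d ≤ 1) :
    ∫ t in (0 : ℝ)..1, g t = (∫ t in (0 : ℝ)..a, g t) + (∫ t in a..b, g t) + (∫ t in b..c, g t) +
      (∫ t in c..d, g t) + ∫ t in d..1, g t := by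
  have hi : ∀ s t : ℝ, 0 ≤ s → s ≤ t → t ≤ 1 → IntervalIntegrable g volume s t := by
    intro s t hs hst ht
    refine (hg.mono ?_).intervalIntegrable
    rw [uIcc_of_le hst]
    exact Icc_subset_Icc hs ht
  rw [intervalIntegral.integral_add_adjacent_intervals (hi 0 a le_rfl h0 (by linarith))
      (hi a b h0 h1 (by linarith)),
    intervalIntegral.integral_add_adjacent_intervals (hi 0 b le_rfl (by linarith) (by linarith))
      (hi b c (by linarith) h2 (by linarith)),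
    intervalIntegral.integral_add_adjacent_intervals (hi 0 c le_rfl (by linarith) (by linarith))
      (hi c d (by linarith) h3 (by linarith)),
    intervalIntegral.integral_add_adjacent_intervals (hi 0 d le_rfl (by linarith) (by linarith))
      (hi d 1 (by linarith) h4 le_rfl)]

theorem tbd (hseg : SegStmt) : TbdStmt := by
  intro F l'' l' x β ρ M hc hcc hF h1 h2 h3 h4 h5 h6 h7 h8 h9 h10
  have hM : ∀ c d : ℝ, 0 ≤ c → d ≤ 1 → ∀ t ∈ Icc c d, F t ≤ M := fun c d hc0 hd t ht =>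
    (hF t ⟨hc0.trans ht.1, ht.2.trans hd⟩).2
  have hρ : 0 ≤ ρ := h5.trans h6
  have sg : ∀ c d p q : ℝ, 0 ≤ c → c ≤ d → d ≤ 1 → 0 ≤ p → 0 ≤ q → p ≤ F c → q ≤ F d → p ≤ ρ →
      q ≤ ρ → ∫ t in c..d, F t ^ 4 ≤
        (d - c) * (p ^ 4 + p ^ 3 * q + p ^ 2 * q ^ 2 + p * q ^ 3 + q ^ 4) / 5 +
        (M ^ 2 + ρ ^ 2) * ((∫ t in c..d, F t ^ 2) - (d - c) * (p ^ 2 + p * q + q ^ 2) / 3) := by
    intro c d p q hc0 hcd hd hp hq hpc hqd hpr hqr
    exact (hseg F c d p q M ρ hcd (hc.mono (Icc_subset_Icc hc0 hd))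
      (hcc.subset (Icc_subset_Icc hc0 hd) (convex_Icc _ _)) hp hq hpc hqd hpr hqr
      (hM c d hc0 hd)).2
  have s1 := sg 0 l'' 0 β le_rfl h1 (by linarith) le_rfl h5 (hF 0 ⟨le_rfl, zero_le_one⟩).1 h7 hρ h6
  have s2 := sg l'' l' β ρ h1 h2 (by linarith) h5 hρ h7 h8 h6 le_rfl
  have s3 := sg l' (l' + 1 / 2) ρ ρ (by linarith) (by linarith) (by linarith) hρ hρ h8 h9 le_rfl
    le_rfl
  have s4 := sg (l' + 1 / 2) (l'' + x) ρ β (by linarith) h3 h4 hρ h5 h9 h10 le_rfl h6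
  have s5 := sg (l'' + x) 1 β 0 (by linarith) h4 le_rfl h5 le_rfl h10
    (hF 1 ⟨zero_le_one, le_rfl⟩).1 h6 hρ
  have e2 := split5 (fun t => F t ^ 2) (hc.pow 2) h1 h2 (by linarith) h3 h4
  have e4 := split5 (fun t => F t ^ 4) (hc.pow 4) h1 h2 (show l' ≤ l' + 1 / 2 by linarith) h3 h4
  rw [e4, e2]
  generalize (∫ t in (0 : ℝ)..l'', F t ^ 2) = A1 at *
  generalize (∫ t in l''..l', F t ^ 2) = A2 at *
  generalize (∫ t in l'..(l' + 1 / 2), F t ^ 2) = A3 at *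
  generalize (∫ t in (l' + 1 / 2)..(l'' + x), F t ^ 2) = A4 at *
  generalize (∫ t in (l'' + x)..1, F t ^ 2) = A5 at *
  have hs := add_le_add (add_le_add (add_le_add (add_le_add s1 s2) s3) s4) s5
  refine hs.trans (le_of_eq ?_)
  ring

end Pool.Agent.UL4.H19
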